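import Mathlib
import Pool.Agent.H39.Epi

set_option autoImplicit false

namespace Pool.Agent.Results.MP_44948e_lc.Weak

section aux

variable {ι : Type} {ar : ι → ℕ}

/-- add to every relation its complement -/
def TT (x : (p : Σ i, Fin (ar i) → ℕ) → Bool) (p : Σ j : ι × Bool, Fin (ar j.1) → ℕ) : Bool :=
  decide (x ⟨p.1.1, p.2⟩ = p.1.2)

/-- forget the complements -/
def RR (y : (p : Σ j : ι × Bool, Fin (ar j.1) → ℕ) → Bool) (p : Σ i, Fin (ar i) → ℕ) : Bool :=
  y ⟨(p.1, true), p.2⟩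

theorem RR_TT (x : (p : Σ i, Fin (ar i) → ℕ) → Bool) : RR (TT x) = x := by
  funext p
  simp [RR, TT]

theorem key (u v : (p : Σ i, Fin (ar i) → ℕ) → Bool) (h : ℕ → ℕ) :
    (∀ p : (Σ j : ι × Bool, Fin (ar j.1) → ℕ), TT v p = true → TT u ⟨p.1, h ∘ p.2⟩ = true) ↔
      ∀ p : (Σ i, Fin (ar i) → ℕ), v p = u ⟨p.1, h ∘ p.2⟩ := by
  constructor
  · intro H p
    have := H ⟨(p.1, v p), p.2⟩ (by simp [TT])
    simp only [TT, decide_eq_true_eq] at this
    exact this.symm
  · intro H p hp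
    simp only [TT, decide_eq_true_eq] at hp ⊢
    rw [← hp]
    exact (H ⟨p.1.1, p.2⟩).symm

theorem meas_TT : Measurable (TT (ι := ι) (ar := ar)) :=
  measurable_pi_lambda _ fun p =>
    (Measurable.of_discrete (f := fun b : Bool => decide (b = p.1.2))).comp (measurable_pi_apply _)

theorem meas_RR : Measurable (RR (ι := ι) (ar := ar)) :=
  measurable_pi_lambda _ fun _ => measurable_pi_apply _

end aux

/-- Every analytic quasi-order on a Polish space is Borel bi-reducible with the weak-epimorphism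
quasi-order on some isomorphism-invariant Borel set of structures on the natural numbers in a
countable relational language. -/
theorem result :
  ∀ (X : Type) [TopologicalSpace X] [PolishSpace X] [MeasurableSpace X] [BorelSpace X]
    (R : Set (X × X)),
    MeasureTheory.AnalyticSet R →
    (∀ x, (x, x) ∈ R) →
    (∀ x y z, (x, y) ∈ R → (y, z) ∈ R → (x, z) ∈ R) →
    ∃ (ι : Type) (_ : Countable ι) (arity : ι → ℕ)
      (B : Set ((p : Σ i, Fin (arity i) → ℕ) → Bool)),
      MeasurableSet B ∧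
      (∀ σ : Equiv.Perm ℕ, ∀ x ∈ B,
        (fun p : (Σ i, Fin (arity i) → ℕ) => x ⟨p.1, ⇑σ ∘ p.2⟩) ∈ B) ∧
      (∃ f : X → ((p : Σ i, Fin (arity i) → ℕ) → Bool),
        Measurable f ∧ (∀ x, f x ∈ B) ∧
        ∀ x y, (x, y) ∈ R ↔
          ∃ h : ℕ → ℕ, Function.Surjective h ∧
            ∀ p : (Σ i, Fin (arity i) → ℕ), f y p = true → f x ⟨p.1, h ∘ p.2⟩ = true) ∧
      (∃ g : B → X, Measurable g ∧
        ∀ u v : B,
          (∃ h : ℕ → ℕ, Function.Surjective h ∧
            ∀ p : (Σ i, Fin (arity i) → ℕ), v.1 p = true → u.1 ⟨p.1, h ∘ p.2⟩ = true) ↔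
          (g u, g v) ∈ R) := by
  intro X _ _ _ _ R hR h1 h2
  obtain ⟨c, φ, h3, h4, h5, h6⟩ := Pool.Agent.H39.Epi.exists_code hR h1
  obtain ⟨B, hB, hσ, ⟨f, hf, hfB, hfR⟩, g, hg, hgR⟩ := Pool.Agent.H39.Epi.main R h1 h2 h3 h4 h5 h6
  refine ⟨Option ℕ × Bool, inferInstance, fun j => (fun _ : Option ℕ => 2) j.1,
    {y | RR (ar := fun _ : Option ℕ => 2) y ∈ B ∧ TT (RR (ar := fun _ : Option ℕ => 2) y) = y},
    ?_, ?_, ⟨fun x => TT (ar := fun _ : Option ℕ => 2) (f x), meas_TT.comp hf, fun x => ?_,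
      fun x y => ?_⟩, fun u => g ⟨_, u.2.1⟩, hg.comp ?_, fun u v => ?_⟩
  · refine (meas_RR hB).inter ?_
    have : {y | TT (RR (ar := fun _ : Option ℕ => 2) y) = y} =
        ⋂ p, {y | TT (RR (ar := fun _ : Option ℕ => 2) y) p = y p} := by
      ext y
      simp [funext_iff]
    change MeasurableSet {y | TT (RR (ar := fun _ : Option ℕ => 2) y) = y}
    rw [this]
    exact MeasurableSet.iInter fun p => measurableSet_eq_fun
      (measurable_pi_iff.1 (meas_TT.comp (meas_RR (ar := fun _ : Option ℕ => 2))) p)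
      (measurable_pi_apply p)
  · intro σ x hx
    exact ⟨hσ σ _ hx.1, funext fun p => congrFun hx.2 ⟨p.1, ⇑σ ∘ p.2⟩⟩
  · exact ⟨by rw [RR_TT]; exact hfB x, by rw [RR_TT]⟩
  · rw [hfR]
    exact exists_congr fun h => and_congr_right fun _ => (key (f x) (f y) h).symm
  · exact (meas_RR.comp measurable_subtype_coe).subtype_mk
  · rw [← hgR]
    refine exists_congr fun h => and_congr_right fun _ => ?_
    rw [← key, u.2.2, v.2.2]

end Pool.Agent.Results.MP_44948e_lc.Weak
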